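import Pool.Agent.Helper13.Fer.Bern

/-!
# Injectivity of the sawtooth convolution on functions with vanishing partial norms
-/

set_option autoImplicit false

namespace Pool.Agent.Helper13.Fer

open Finset

variable {m : ℕ} [NeZero m]

/-- a function on the units all of whose character sums vanish is zero -/
lemma zero_of_char (b : (ZMod m)ˣ → ℂ)
    (h : ∀ χ : DirichletCharacter ℂ m, ∑ v : (ZMod m)ˣ, χ (v : ZMod m) * b v = 0)
    (u : (ZMod m)ˣ) : b u = 0 := by
  have h1 : ∑ v : (ZMod m)ˣ, b v * ∑ χ : DirichletCharacter ℂ m,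
      χ ((u : ZMod m))⁻¹ * χ (v : ZMod m) = 0 := by
    have : ∑ v : (ZMod m)ˣ, b v * ∑ χ : DirichletCharacter ℂ m,
        χ ((u : ZMod m))⁻¹ * χ (v : ZMod m) = ∑ χ : DirichletCharacter ℂ m,
        χ ((u : ZMod m))⁻¹ * ∑ v : (ZMod m)ˣ, χ (v : ZMod m) * b v := by
      simp_rw [mul_sum]
      rw [sum_comm]
      refine sum_congr rfl fun χ _ => sum_congr rfl fun v _ => ?_
      ring
    rw [this]
    exact sum_eq_zero fun χ _ => by rw [h, mul_zero]
  have h2 : ∀ v : (ZMod m)ˣ, b v * ∑ χ : DirichletCharacter ℂ m,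
      χ ((u : ZMod m))⁻¹ * χ (v : ZMod m) = if u = v then b v * (m.totient : ℂ) else 0 := by
    intro v
    rw [DirichletCharacter.sum_char_inv_mul_char_eq ℂ u.isUnit, mul_ite, mul_zero]
    by_cases huv : u = v
    · rw [if_pos huv, if_pos (congrArg _ huv)]
    · rw [if_neg huv, if_neg (fun h => huv (Units.val_injective h))]
  rw [sum_congr rfl fun v _ => h2 v, sum_ite_eq, if_pos (mem_univ u)] at h1
  refine (mul_eq_zero.1 h1).resolve_right ?_
  exact_mod_cast (Nat.totient_pos.2 (Nat.pos_of_ne_zero (NeZero.ne m))).ne'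

omit [NeZero m] in
lemma char_unit_ne (χ : DirichletCharacter ℂ m) (u : (ZMod m)ˣ) : χ (u : ZMod m) ≠ 0 :=
  (u.isUnit.map χ).ne_zero

omit [NeZero m] in
lemma char_mul (χ : DirichletCharacter ℂ m) (u v : (ZMod m)ˣ) :
    χ ((u * v : (ZMod m)ˣ) : ZMod m) = χ (u : ZMod m) * χ (v : ZMod m) := by
  rw [Units.val_mul, map_mul]

/-- translation -/
lemma char_trans (χ : DirichletCharacter ℂ m) (c : (ZMod m)ˣ) (f : (ZMod m)ˣ → ℂ) :
    ∑ t : (ZMod m)ˣ, χ (t : ZMod m) * f (t * c) =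
      (χ (c : ZMod m))⁻¹ * ∑ t : (ZMod m)ˣ, χ (t : ZMod m) * f t := by
  rw [← Equiv.sum_comp (Equiv.mulRight c) (fun t : (ZMod m)ˣ => χ (t : ZMod m) * f t), mul_sum]
  refine sum_congr rfl fun t _ => ?_
  rw [Equiv.coe_mulRight, char_mul]
  have := char_unit_ne χ c
  field_simp

/-- Let `β` be an integer function on the units modulo `m` all of whose partial norms (sums over
cosets of the units congruent to `1` modulo the prime-to-`p` part of `m`) vanish, and whose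
convolution with the sawtooth function vanishes. Then `β` is even. -/
theorem saw_inj (β : (ZMod m)ˣ → ℤ)
    (hnorm : ∀ p : ℕ, p.Prime → p ∣ m → ∀ x : (ZMod m)ˣ,
      ∑ u ∈ univ.filter (fun u : (ZMod m)ˣ => ZMod.unitsMap (Nat.ordCompl_dvd m p) u = 1),
        β (u * x) = 0)
    (h : ∀ t : (ZMod m)ˣ, ∑ u : (ZMod m)ˣ,
      β u * (2 * (((t * u : (ZMod m)ˣ) : ZMod m).val : ℤ) - m) = 0) (u : (ZMod m)ˣ) :
    β (-u) = β u := by
  suffices hs : ((β u - β (-u) : ℤ) : ℂ) = 0 by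
    have : β u - β (-u) = 0 := by exact_mod_cast hs
    linarith
  refine zero_of_char (fun u => ((β u - β (-u) : ℤ) : ℂ)) (fun χ => ?_) u
  -- reduce to the transform of `β`
  have e0 : ∑ v : (ZMod m)ˣ, χ (v : ZMod m) * ((β v - β (-v) : ℤ) : ℂ) =
      (1 - χ (-1)) * ∑ v : (ZMod m)ˣ, χ (v : ZMod m) * (β v : ℂ) := by
    have h1 : ∑ v : (ZMod m)ˣ, χ (v : ZMod m) * (β (-v) : ℂ) =
        χ (-1) * ∑ v : (ZMod m)ˣ, χ (v : ZMod m) * (β v : ℂ) := by
      rw [← Equiv.sum_comp (Equiv.neg (ZMod m)ˣ), mul_sum]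
      refine sum_congr rfl fun v _ => ?_
      rw [Equiv.neg_apply, neg_neg, Units.val_neg, ← neg_one_mul, map_mul]
      ring
    rw [sub_mul, one_mul, ← h1, ← sum_sub_distrib]
    refine sum_congr rfl fun v _ => ?_
    push_cast
    ring
  rw [e0]
  rcases χ.even_or_odd with he | ho
  · rw [he, sub_self, zero_mul]
  suffices hz : ∑ v : (ZMod m)ˣ, χ (v : ZMod m) * (β v : ℂ) = 0 by rw [hz, mul_zero]
  by_cases hc : ∀ p : ℕ, p.Prime → p ∣ m → p ∣ χ.conductor
  · -- all primes divide the conductor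
    have hodd' : (χ⁻¹).Odd := by
      rw [DirichletCharacter.Odd, MulChar.inv_apply_eq_inv', ho, inv_neg, inv_one]
    have hcond : (χ⁻¹).conductor = χ.conductor := by
      unfold DirichletCharacter.conductor
      congr 1
      ext d
      constructor
      · rintro ⟨hd, χ₀, h0⟩
        exact ⟨hd, χ₀⁻¹, by rw [map_inv, ← h0, inv_inv]⟩
      · rintro ⟨hd, χ₀, h0⟩
        exact ⟨hd, χ₀⁻¹, by rw [map_inv, ← h0]⟩
    have hB := BU_ne_rad (χ := χ⁻¹) (by rw [hcond]; exact hc) hodd'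
    have key : BU χ⁻¹ * ∑ w : (ZMod m)ˣ, χ (w : ZMod m) * ((β w : ℤ) : ℂ) = 0 := by
      have h1 : ∑ t : (ZMod m)ˣ, χ⁻¹ (t : ZMod m) * ((∑ u : (ZMod m)ˣ, β u *
          (2 * (((t * u : (ZMod m)ˣ) : ZMod m).val : ℤ) - m) : ℤ) : ℂ) = 0 :=
        sum_eq_zero fun t _ => by rw [h t, Int.cast_zero, mul_zero]
      rw [← h1]
      have h2 : ∀ u : (ZMod m)ˣ, ∑ t : (ZMod m)ˣ, χ⁻¹ (t : ZMod m) *
          ((2 * (((t * u : (ZMod m)ˣ) : ZMod m).val : ℤ) - m : ℤ) : ℂ) =
          χ (u : ZMod m) * BU χ⁻¹ := by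
        intro u
        have := char_trans χ⁻¹ u (fun t => ((2 * ((t : ZMod m).val : ℤ) - m : ℤ) : ℂ))
        rw [MulChar.inv_apply_eq_inv', inv_inv] at this
        rw [BU, ← this]
      have h3 : ∑ t : (ZMod m)ˣ, χ⁻¹ (t : ZMod m) * ((∑ u : (ZMod m)ˣ, β u *
          (2 * (((t * u : (ZMod m)ˣ) : ZMod m).val : ℤ) - m) : ℤ) : ℂ) =
          ∑ u : (ZMod m)ˣ, ((β u : ℤ) : ℂ) * ∑ t : (ZMod m)ˣ, χ⁻¹ (t : ZMod m) *
            ((2 * (((t * u : (ZMod m)ˣ) : ZMod m).val : ℤ) - m : ℤ) : ℂ) := by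
        simp_rw [Int.cast_sum, Int.cast_mul, mul_sum]
        rw [sum_comm]
        refine sum_congr rfl fun u _ => sum_congr rfl fun t _ => ?_
        ring
      rw [h3]
      simp_rw [h2]
      rw [mul_sum]
      refine sum_congr rfl fun u _ => ?_
      ring
    exact (mul_eq_zero.1 key).resolve_left hB
  · push Not at hc
    obtain ⟨p, hp, hpm, hpc⟩ := hc
    -- the character is trivial on the partial group
    have htriv : ∀ w : (ZMod m)ˣ, ZMod.unitsMap (Nat.ordCompl_dvd m p) w = 1 →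
        χ (w : ZMod m) = 1 := by
      intro w hw
      by_contra hne
      exact hpc (dvd_conductor (p := p) (k := m.factorization p) (d := ordCompl[p] m) hp
        (by rw [mul_comm]; exact (Nat.ordProj_mul_ordCompl_eq_self m p).symm) _ w hw hne)
    set K := univ.filter (fun u : (ZMod m)ˣ => ZMod.unitsMap (Nat.ordCompl_dvd m p) u = 1) with hK
    have h1K : (1 : (ZMod m)ˣ) ∈ K := by rw [hK, mem_filter]; exact ⟨mem_univ _, map_one _⟩
    have hcard : (K.card : ℂ) ≠ 0 := by exact_mod_cast (card_pos.2 ⟨1, h1K⟩).ne'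
    have h2 : (K.card : ℂ) * ∑ v : (ZMod m)ˣ, χ (v : ZMod m) * (β v : ℂ) = 0 := by
      have h3 : ∀ w ∈ K, ∑ v : (ZMod m)ˣ, χ (v : ZMod m) * (β (w * v) : ℂ) =
          ∑ v : (ZMod m)ˣ, χ (v : ZMod m) * (β v : ℂ) := by
        intro w hw
        rw [← Equiv.sum_comp (Equiv.mulLeft w) (fun v : (ZMod m)ˣ => χ (v : ZMod m) * (β v : ℂ))]
        refine sum_congr rfl fun v _ => ?_
        rw [Equiv.coe_mulLeft, char_mul, htriv w (mem_filter.1 hw).2, one_mul]
      calc (K.card : ℂ) * ∑ v : (ZMod m)ˣ, χ (v : ZMod m) * (β v : ℂ)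
          = ∑ w ∈ K, ∑ v : (ZMod m)ˣ, χ (v : ZMod m) * (β (w * v) : ℂ) := by
            rw [sum_congr rfl h3, sum_const, nsmul_eq_mul]
        _ = ∑ v : (ZMod m)ˣ, χ (v : ZMod m) * ((∑ w ∈ K, β (w * v) : ℤ) : ℂ) := by
            rw [sum_comm]
            refine sum_congr rfl fun v _ => ?_
            rw [← mul_sum]
            push_cast
            rfl
        _ = 0 := sum_eq_zero fun v _ => by rw [hnorm p hp hpm v, Int.cast_zero, mul_zero]
    exact (mul_eq_zero.1 h2).resolve_left hcard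

end Pool.Agent.Helper13.Fer
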