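import Pool.Agent.Helper52.Fermat.Saw3

/-!
# `B_{1,χ} ≠ 0` for odd characters whose conductor is divisible by all primes of the level
-/

set_option autoImplicit false

namespace Pool.Agent.Helper13.Fer

open Finset
open Pool.Agent.Helper29.Rohr Pool.Agent.Helper52.Fermat

variable {m : ℕ} [NeZero m]

lemma prim_apply' {χ : DirichletCharacter ℂ m}
    (hc : ∀ p : ℕ, p.Prime → p ∣ m → p ∣ χ.conductor) (n : ℕ) :
    χ (n : ZMod m) = χ.primitiveCharacter (n : ZMod χ.conductor) := by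
  by_cases h : n.Coprime m
  · have h1 : IsCoprime (n : ℤ) (m : ℤ) := Nat.isCoprime_iff_coprime.2 h
    have := χ.primitiveCharacter_apply_of_isCoprime h1
    rw [Int.cast_natCast, Int.cast_natCast] at this
    exact this.symm
  · obtain ⟨p, hp, hpn, hpm⟩ := Nat.Prime.not_coprime_iff_dvd.1 h
    have h1 : ¬ IsUnit (n : ZMod m) := by rwa [ZMod.isUnit_iff_coprime]
    have h2 : ¬ IsUnit (n : ZMod χ.conductor) := by
      rw [ZMod.isUnit_iff_coprime]
      exact Nat.Prime.not_coprime_iff_dvd.2 ⟨p, hp, hpn, hc p hp hpm⟩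
    rw [MulChar.map_nonunit _ h1, MulChar.map_nonunit _ h2]

theorem B1_ne_rad {χ : DirichletCharacter ℂ m}
    (hc : ∀ p : ℕ, p.Prime → p ∣ m → p ∣ χ.conductor) (ho : χ.Odd) : B1 χ ≠ 0 := by
  have hd0 : χ.conductor ≠ 0 := χ.conductor_ne_zero
  haveI : NeZero χ.conductor := ⟨hd0⟩
  obtain ⟨q, hq⟩ := χ.conductor_dvd_level
  have hodd : χ.primitiveCharacter.Odd := by
    have h1 : IsCoprime (-1 : ℤ) (m : ℤ) := isCoprime_one_left.neg_left
    have h2 := χ.primitiveCharacter_apply_of_isCoprime h1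
    rw [Int.cast_neg, Int.cast_one, Int.cast_neg, Int.cast_one] at h2
    rw [DirichletCharacter.Odd, h2, ho]
  have hne := B1_ne_prim χ.primitiveCharacter_isPrimitive hodd
  have h1 : B1 χ = B1 χ.primitiveCharacter := by
    rw [B1_range χ (odd_ne_one ho), B1_range _ (odd_ne_one hodd)]
    have h0 : ∑ k ∈ range χ.conductor, χ.primitiveCharacter (k : ZMod χ.conductor) = 0 := by
      rw [← sum_zmod' (D := χ.conductor) (fun x => χ.primitiveCharacter x)]
      exact MulChar.sum_eq_zero_of_ne_one (odd_ne_one hodd)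
    have h2 := sum_dist (fun x => χ.primitiveCharacter x) h0 q
    rw [← hq] at h2
    rw [sum_congr rfl fun k _ => by rw [prim_apply' hc k]]
    have hm0 : (m : ℂ) ≠ 0 := D_ne
    have hc0 : (χ.conductor : ℂ) ≠ 0 := D_ne
    have hmq : (m : ℂ) = χ.conductor * q := by exact_mod_cast congrArg (Nat.cast : ℕ → ℂ) hq
    have hq0 : (q : ℂ) ≠ 0 := by
      intro h
      rw [h, mul_zero] at hmq
      exact hm0 hmq
    change 1 / (m : ℂ) * ∑ k ∈ range m, (fun x => χ.primitiveCharacter x)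
      (k : ZMod χ.conductor) * (k : ℂ) = _
    rw [h2, hmq]
    field_simp
  rw [h1]
  exact hne

/-- `∑_u χ(u) (2u - m)` over the units -/
noncomputable def BU (χ : DirichletCharacter ℂ m) : ℂ :=
  ∑ t : (ZMod m)ˣ, χ (t : ZMod m) * ((2 * ((t : ZMod m).val : ℤ) - m : ℤ) : ℂ)

lemma BU_eq (χ : DirichletCharacter ℂ m) : BU χ = 2 * m * B1 χ := by
  have h : BU χ = ∑ x : ZMod m, χ x * ((2 * (x.val : ℤ) - m : ℤ) : ℂ) := by
    unfold BU
    refine Fintype.sum_of_injective (fun t : (ZMod m)ˣ => (t : ZMod m)) Units.val_injective _ _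
      (fun x hx => ?_) fun _ => rfl
    have : ¬ IsUnit x := fun ⟨u, hu⟩ => hx ⟨u, hu⟩
    rw [MulChar.map_nonunit _ this, zero_mul]
  have hm0 : (m : ℂ) ≠ 0 := D_ne
  rw [h, B1, mul_sum]
  refine sum_congr rfl fun x _ => ?_
  unfold saw
  push_cast
  field_simp

/-- if `χ` is not trivial on the units congruent to `1` modulo `d`, where `m = d * p ^ k`,
then `p` divides the conductor -/
lemma dvd_conductor {χ : DirichletCharacter ℂ m} {p k d : ℕ} (hp : p.Prime) (hm : m = d * p ^ k)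
    (hdm : d ∣ m) (u : (ZMod m)ˣ) (hu1 : ZMod.unitsMap hdm u = 1) (hu2 : χ (u : ZMod m) ≠ 1) :
    p ∣ χ.conductor := by
  by_contra h
  have h1 : χ.conductor.Coprime (p ^ k) :=
    (Nat.Coprime.pow_left k ((Nat.Prime.coprime_iff_not_dvd hp).2 h)).symm
  have h2 : χ.conductor ∣ d := by
    have h3 : χ.conductor ∣ d * p ^ k := hm ▸ χ.conductor_dvd_level
    exact h1.dvd_of_dvd_mul_right h3
  apply hu2
  have h3 : χ.FactorsThrough d := DirichletCharacter.FactorsThrough.mono _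
    χ.factorsThrough_conductor h2 hdm
  have h4 := (DirichletCharacter.factorsThrough_iff_ker_unitsMap hdm).1 h3
  have h5 : u ∈ (ZMod.unitsMap hdm).ker := hu1
  have h6 := h4 h5
  rw [MonoidHom.mem_ker] at h6
  have h7 : χ (u : ZMod m) = ((χ.toUnitHom u : ℂˣ) : ℂ) := (MulChar.coe_toUnitHom χ u).symm
  rw [h7, h6, Units.val_one]

theorem BU_ne_rad {χ : DirichletCharacter ℂ m}
    (hc : ∀ p : ℕ, p.Prime → p ∣ m → p ∣ χ.conductor) (ho : χ.Odd) : BU χ ≠ 0 := by
  have hm0 : (m : ℂ) ≠ 0 := D_ne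
  rw [BU_eq]
  exact mul_ne_zero (mul_ne_zero two_ne_zero hm0) (B1_ne_rad hc ho)

end Pool.Agent.Helper13.Fer
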