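import Mathlib

/-!
# Integer functions on products whose odd part has vanishing mixed differences

`c` is an involution, `h` an integer function with `h x + h (c x) = 1` (indicator function of a
half system).
-/

set_option autoImplicit false

namespace Pool.Agent.Helper13.Fer

/-- one factor -/
theorem comb1 {X : Type*} (c : X → X) (hc : ∀ x, c (c x) = x) (h : X → ℤ)
    (hh : ∀ x, h x + h (c x) = 1) (n : X → ℤ)
    (hn : ∀ x x', (n x - n (c x)) - (n x' - n (c x')) = 0) :
    ∃ f : X → ℤ, ∀ x, n x = f x + f (c x) := by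
  have he : ∀ x, n (c x) = n x := by
    intro x
    have h1 := hn x (c x)
    rw [hc] at h1
    linarith
  refine ⟨fun x => h x * n x, fun x => ?_⟩
  have h1 := hh x
  show n x = h x * n x + h (c x) * n (c x)
  rw [he]
  linear_combination (-n x) * h1

/-- two factors -/
theorem comb2 {X Y : Type*} (c : X → X) (hc : ∀ x, c (c x) = x) (d : Y → Y)
    (hd : ∀ y, d (d y) = y) (h : X → ℤ) (hh : ∀ x, h x + h (c x) = 1)
    (k : Y → ℤ) (hk : ∀ y, k y + k (d y) = 1) (n : X → Y → ℤ)
    (hn : ∀ x x' y y', (n x y - n (c x) (d y)) - (n x' y - n (c x') (d y)) -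
      (n x y' - n (c x) (d y')) + (n x' y' - n (c x') (d y')) = 0) :
    ∃ (ε : ℤ) (a : X → ℤ) (b : Y → ℤ) (f : X → Y → ℤ), (ε = 0 ∨ ε = 1) ∧
      ∀ x y, n x y = ε * (h x * k y) + a x + b y + (f x y + f (c x) (d y)) := by
  rcases isEmpty_or_nonempty X with hX | ⟨⟨x0⟩⟩
  · exact ⟨0, fun _ => 0, fun _ => 0, fun _ _ => 0, Or.inl rfl, fun x => (hX.false x).elim⟩
  rcases isEmpty_or_nonempty Y with hY | ⟨⟨y0⟩⟩
  · exact ⟨0, fun _ => 0, fun _ => 0, fun _ _ => 0, Or.inl rfl, fun _ y => (hY.false y).elim⟩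
  set m : X → Y → ℤ := fun x y => n x y - n (c x) (d y) with hm
  have hmm : ∀ x x' y y', m x y - m x' y - m x y' + m x' y' = 0 := hn
  have hmo : ∀ x y, m (c x) (d y) = - m x y := by
    intro x y
    simp only [hm, hc, hd]
    ring
  set p : X → ℤ := fun x => m x y0 with hp
  set q : Y → ℤ := fun y => m x0 y - m x0 y0 with hq
  have hpq : ∀ x y, m x y = p x + q y := by
    intro x y
    have := hmm x x0 y y0
    simp only [hp, hq]
    linarith
  set κ : ℤ := p x0 + p (c x0) with hκ
  have hsum : ∀ x y, (p x + p (c x)) + (q y + q (d y)) = 0 := by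
    intro x y
    have h1 := hmo x y
    rw [hpq, hpq] at h1
    linarith
  have hpκ : ∀ x, p x + p (c x) = κ := by
    intro x
    have h1 := hsum x y0
    have h2 := hsum x0 y0
    linarith
  have hqκ : ∀ y, q y + q (d y) = -κ := by
    intro y
    have h1 := hsum x0 y
    linarith
  obtain ⟨μ, ε, hε, hκμ⟩ : ∃ μ ε : ℤ, (ε = 0 ∨ ε = 1) ∧ κ = 2 * μ + ε := by
    refine ⟨κ / 2, κ % 2, Int.emod_two_eq_zero_or_one κ, ?_⟩
    have := Int.mul_ediv_add_emod κ 2
    linarith
  set P : X → ℤ := fun x => p x - μ - ε * h x with hP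
  set Q : Y → ℤ := fun y => q y + μ - ε * k y + ε with hQ
  have hPo : ∀ x, P (c x) = - P x := by
    intro x
    have h1 := hpκ x
    have h2 := hh x
    simp only [hP]
    linear_combination h1 - ε * h2 + hκμ
  have hQo : ∀ y, Q (d y) = - Q y := by
    intro y
    have h1 := hqκ y
    have h2 := hk y
    simp only [hQ]
    linear_combination h1 - ε * h2 - hκμ
  refine ⟨ε, fun x => h x * P x, fun y => k y * Q y,
    fun x y => h x * (n x y - ε * (h x * k y) - h x * P x - k y * Q y), hε, fun x y => ?_⟩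
  have h1 := hh x
  have h2 := hk y
  have h3 := hpq x y
  have e1 : h (c x) = 1 - h x := by linarith
  have e2 : k (d y) = 1 - k y := by linarith
  have e3 : n (c x) (d y) = n x y - (p x + q y) := by
    simp only [hm] at h3
    linarith
  have e4 : p x = P x + μ + ε * h x := by simp only [hP]; ring
  have e5 : q y = Q y - μ + ε * k y - ε := by simp only [hQ]; ring
  simp only []
  rw [hPo, hQo, e1, e2, e3, e4, e5]
  ring

/-- three factors -/
theorem comb3 {X Y Z : Type*} (c : X → X) (hc : ∀ x, c (c x) = x) (d : Y → Y)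
    (hd : ∀ y, d (d y) = y) (e : Z → Z) (he : ∀ z, e (e z) = z)
    (h : X → ℤ) (hh : ∀ x, h x + h (c x) = 1)
    (k : Y → ℤ) (hk : ∀ y, k y + k (d y) = 1) (l : Z → ℤ) (hl : ∀ z, l z + l (e z) = 1)
    (n : X → Y → Z → ℤ)
    (hn : ∀ x x' y y' z z',
      (n x y z - n (c x) (d y) (e z)) - (n x' y z - n (c x') (d y) (e z)) -
      (n x y' z - n (c x) (d y') (e z)) + (n x' y' z - n (c x') (d y') (e z)) -
      ((n x y z' - n (c x) (d y) (e z')) - (n x' y z' - n (c x') (d y) (e z')) -
      (n x y' z' - n (c x) (d y') (e z')) + (n x' y' z' - n (c x') (d y') (e z'))) = 0) :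
    ∃ (a : X → Y → ℤ) (b : Y → Z → ℤ) (b' : X → Z → ℤ) (f : X → Y → Z → ℤ),
      ∀ x y z, n x y z = a x y + b y z + b' x z + (f x y z + f (c x) (d y) (e z)) := by
  rcases isEmpty_or_nonempty X with hX | ⟨⟨x0⟩⟩
  · exact ⟨fun _ _ => 0, fun _ _ => 0, fun _ _ => 0, fun _ _ _ => 0,
      fun x => (hX.false x).elim⟩
  rcases isEmpty_or_nonempty Y with hY | ⟨⟨y0⟩⟩
  · exact ⟨fun _ _ => 0, fun _ _ => 0, fun _ _ => 0, fun _ _ _ => 0,
      fun _ y => (hY.false y).elim⟩
  rcases isEmpty_or_nonempty Z with hZ | ⟨⟨z0⟩⟩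
  · exact ⟨fun _ _ => 0, fun _ _ => 0, fun _ _ => 0, fun _ _ _ => 0,
      fun _ _ z => (hZ.false z).elim⟩
  set m : X → Y → Z → ℤ := fun x y z => n x y z - n (c x) (d y) (e z) with hm
  have hmm : ∀ x x' y y' z z', m x y z - m x' y z - m x y' z + m x' y' z -
      (m x y z' - m x' y z' - m x y' z' + m x' y' z') = 0 := hn
  have hmo : ∀ x y z, m (c x) (d y) (e z) = - m x y z := by
    intro x y z
    simp only [hm, hc, hd, he]
    ring
  set A : X → Y → ℤ := fun x y => m x y z0 with hA
  set C : X → Z → ℤ := fun x z => m x y0 z - m x y0 z0 with hC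
  set B : Y → Z → ℤ := fun y z => m x0 y z - m x0 y z0 - m x0 y0 z + m x0 y0 z0 with hB
  have hABC : ∀ x y z, m x y z = A x y + B y z + C x z := by
    intro x y z
    have := hmm x x0 y y0 z z0
    simp only [hA, hB, hC]
    linarith
  -- symmetrised functions
  have hs : ∀ x y z, (A x y + A (c x) (d y)) + (B y z + B (d y) (e z)) +
      (C x z + C (c x) (e z)) = 0 := by
    intro x y z
    have h1 := hmo x y z
    rw [hABC, hABC] at h1
    linarith
  set U : X → ℤ := fun x => -(C x z0 + C (c x) (e z0)) with hU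
  set V : Y → ℤ := fun y => -(B y z0 + B (d y) (e z0)) with hV
  have hAUV : ∀ x y, A x y + A (c x) (d y) = U x + V y := by
    intro x y
    have := hs x y z0
    simp only [hU, hV]
    linarith
  have hUV : ∀ x y, U (c x) + V (d y) = U x + V y := by
    intro x y
    have h1 := hAUV (c x) (d y)
    rw [hc, hd] at h1
    have h2 := hAUV x y
    linarith
  have hUe : ∀ x, U (c x) = U x := by
    intro x
    have h1 := hUV x y0
    have h2 := hUV (c x) y0
    rw [hc] at h2
    have h3 := hUV x (d y0)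
    rw [hd] at h3
    linarith
  have hVe : ∀ y, V (d y) = V y := by
    intro y
    have h1 := hUV x0 y
    rw [hUe] at h1
    linarith
  set W : Z → ℤ := fun z => -U x0 - (C x0 z + C (c x0) (e z)) with hW
  have hCUW : ∀ x z, C x z + C (c x) (e z) = -U x - W z := by
    intro x z
    have h1 := hs x y0 z
    have h2 := hs x0 y0 z
    have h3 := hAUV x y0
    have h4 := hAUV x0 y0
    simp only [hW]
    linarith
  have hBVW : ∀ y z, B y z + B (d y) (e z) = W z - V y := by
    intro y z
    have h1 := hs x0 y z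
    have h2 := hAUV x0 y
    have h3 := hCUW x0 z
    linarith
  have hWe : ∀ z, W (e z) = W z := by
    intro z
    have h1 := hCUW x0 z
    have h2 := hCUW (c x0) (e z)
    rw [hc, he, hUe] at h2
    linarith
  set A' : X → Y → ℤ := fun x y => A x y - h x * U x - k y * V y with hA'
  set B' : Y → Z → ℤ := fun y z => B y z + k y * V y - l z * W z with hB'
  set C' : X → Z → ℤ := fun x z => C x z + h x * U x + l z * W z with hC'
  have hm' : ∀ x y z, m x y z = A' x y + B' y z + C' x z := by
    intro x y z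
    rw [hABC]
    simp only [hA', hB', hC']
    ring
  have hA'o : ∀ x y, A' (c x) (d y) = - A' x y := by
    intro x y
    have h1 := hAUV x y
    have h2 := hh x
    have h3 := hk y
    simp only [hA', hUe, hVe]
    linear_combination h1 - U x * h2 - V y * h3
  have hB'o : ∀ y z, B' (d y) (e z) = - B' y z := by
    intro y z
    have h1 := hBVW y z
    have h2 := hk y
    have h3 := hl z
    simp only [hB', hVe, hWe]
    linear_combination h1 + V y * h2 - W z * h3
  have hC'o : ∀ x z, C' (c x) (e z) = - C' x z := by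
    intro x z
    have h1 := hCUW x z
    have h2 := hh x
    have h3 := hl z
    simp only [hC', hUe, hWe]
    linear_combination h1 + U x * h2 + W z * h3
  refine ⟨fun x y => h x * A' x y, fun y z => k y * B' y z, fun x z => h x * C' x z,
    fun x y z => h x * (n x y z - h x * A' x y - k y * B' y z - h x * C' x z), fun x y z => ?_⟩
  have e1 : h (c x) = 1 - h x := by linarith [hh x]
  have e2 : k (d y) = 1 - k y := by linarith [hk y]
  have e3 : n (c x) (d y) (e z) = n x y z - (A' x y + B' y z + C' x z) := by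
    have h3 := hm' x y z
    simp only [hm] at h3
    linarith
  simp only []
  rw [hA'o, hB'o, hC'o, e1, e2, e3]
  ring

end Pool.Agent.Helper13.Fer
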